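import Pool.Agent.Helper31.RSU.Main

/-!
# Antichains with restricted comparability counts in posets without infinite chains

Every infinite poset all of whose chains are finite (in particular every infinite poset of finite length),
of any cardinality and in any universe, has an infinite antichain `H` such that every element of the poset is
comparable to no element of `H`, to exactly one, or to infinitely many.
-/

set_option autoImplicit false

namespace Pool.Agent.Results.MP_fd2cdc_co.Full

universe u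

/-- Every infinite poset without infinite chains has an infinite antichain `H` such that every element
is comparable to none, exactly one, or infinitely many elements of `H`. -/
theorem result (P : Type u) [PartialOrder P] [Infinite P]
    (hP : ∀ C : Set P, IsChain (· ≤ ·) C → C.Finite) :
    ∃ H : Set P, H.Infinite ∧ IsAntichain (· ≤ ·) H ∧
      ∀ x : P,
        (Cardinal.mk {h : P // h ∈ H ∧ (x ≤ h ∨ h ≤ x)} = 0 ∨
         Cardinal.mk {h : P // h ∈ H ∧ (x ≤ h ∨ h ≤ x)} = 1 ∨
         Cardinal.aleph0 ≤ Cardinal.mk {h : P // h ∈ H ∧ (x ≤ h ∨ h ≤ x)}) := by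
  have hlt : WellFounded ((· < ·) : P → P → Prop) := by
    rw [RelEmbedding.wellFounded_iff_isEmpty]
    refine ⟨fun f => Set.infinite_range_of_injective f.injective (hP (Set.range f) ?_)⟩
    rintro _ ⟨i, rfl⟩ _ ⟨j, rfl⟩ hne
    rcases lt_trichotomy i j with h | h | h
    · exact Or.inr (f.map_rel_iff.2 h).le
    · exact absurd (by rw [h]) hne
    · exact Or.inl (f.map_rel_iff.2 h).le
  have hgt : WellFounded ((· > ·) : P → P → Prop) := by
    rw [RelEmbedding.wellFounded_iff_isEmpty]
    refine ⟨fun f => Set.infinite_range_of_injective f.injective (hP (Set.range f) ?_)⟩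
    rintro _ ⟨i, rfl⟩ _ ⟨j, rfl⟩ hne
    rcases lt_trichotomy i j with h | h | h
    · exact Or.inl (le_of_lt (f.map_rel_iff.2 h))
    · exact absurd (by rw [h]) hne
    · exact Or.inr (le_of_lt (f.map_rel_iff.2 h))
  haveI : WellFoundedLT P := ⟨hlt⟩
  haveI : WellFoundedGT P := ⟨hgt⟩
  obtain ⟨H, h1, h2, h3⟩ := Pool.Agent.Helper31.RSU.exists_antichain P
  refine ⟨H, h1, h2, fun x => ?_⟩
  rcases h3 x with h | h | h
  · left
    rw [Set.encard_eq_zero] at h
    rw [Cardinal.mk_eq_zero_iff]
    exact ⟨fun y => by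
      have : y.1 ∈ ({h | h ∈ H ∧ (x ≤ h ∨ h ≤ x)} : Set P) := y.2
      rw [h] at this
      exact this⟩
  · right; left
    rw [Set.encard_eq_one] at h
    obtain ⟨a, ha⟩ := h
    have ha' : a ∈ ({h | h ∈ H ∧ (x ≤ h ∨ h ≤ x)} : Set P) := by rw [ha]; rfl
    rw [Cardinal.eq_one_iff_unique]
    refine ⟨⟨fun y z => Subtype.ext ?_⟩, ⟨⟨a, ha'⟩⟩⟩
    have hy : y.1 ∈ ({h | h ∈ H ∧ (x ≤ h ∨ h ≤ x)} : Set P) := y.2
    have hz : z.1 ∈ ({h | h ∈ H ∧ (x ≤ h ∨ h ≤ x)} : Set P) := z.2
    rw [ha, Set.mem_singleton_iff] at hy hz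
    rw [hy, hz]
  · right; right
    exact Cardinal.aleph0_le_mk_iff.2 h.to_subtype

end Pool.Agent.Results.MP_fd2cdc_co.Full
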